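import Pool.Agent.H852R2.TE.S.ROUND
import Pool.Agent.H100R2.EX.MARG

namespace TE852
open RC14 RC852 Finset Filter Equiv

/-- more permutations than necessary do not hurt -/
theorem GAPE (s : ℝ) (h : Hyp s) : ∃ k0 : ℕ, ∀ k ≥ k0, ∃ c : ℝ, 0 < c ∧ ∃ B : ℝ, 0 ≤ B ∧
    ∀ᶠ n : ℕ in atTop, (Nat.card {x : Fin k → Alt n // ¬ Good1 n (Rr s n) c x} : ℝ) ≤
      B / (n : ℝ) * (Fintype.card (Alt n) : ℝ) ^ k := by
  obtain ⟨a, ha, c, hc, B, hB, hev⟩ := h
  refine ⟨a, fun k hk => ⟨c, hc, B, hB, ?_⟩⟩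
  filter_upwards [hev] with n hn
  -- a good subfamily is enough
  have hgood : ∀ x : Fin k → Alt n, Good1 n (Rr s n) c (fun i => x (Fin.castLEEmb hk i)) →
      Good1 n (Rr s n) c x := by
    intro x hx j h1 h2 v hv
    refine (hx j h1 h2 v hv).trans ?_
    unfold En
    have e1 : ∑ i : Fin a, ‖repA j n (x (Fin.castLEEmb hk i)) v - v‖ ^ 2 =
        ∑ i ∈ (Finset.univ : Finset (Fin a)).map (Fin.castLEEmb hk),
          ‖repA j n (x i) v - v‖ ^ 2 := by
      rw [Finset.sum_map]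
    rw [e1]
    exact Finset.sum_le_sum_of_subset_of_nonneg (Finset.subset_univ _)
      (fun i _ _ => sq_nonneg _)
  have hle : Nat.card {x : Fin k → Alt n // ¬ Good1 n (Rr s n) c x} ≤
      Nat.card {x : Fin k → Alt n // ¬ Good1 n (Rr s n) c (fun i => x (Fin.castLEEmb hk i))} := by
    apply Nat.card_le_card_of_injective
      (fun x : {x : Fin k → Alt n // ¬ Good1 n (Rr s n) c x} =>
        (⟨x.1, fun h => x.2 (hgood x.1 h)⟩ :
          {x : Fin k → Alt n // ¬ Good1 n (Rr s n) c (fun i => x (Fin.castLEEmb hk i))}))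
    intro x y hxy
    exact Subtype.ext (congrArg (fun z => z.1) hxy)
  have hM := MARG (A := Alt n) (Fin.castLEEmb hk) (fun u => ¬ Good1 n (Rr s n) c u)
  rw [Fintype.card_fin, Fintype.card_fin] at hM
  have hA : (0 : ℝ) < (Fintype.card (Alt n) : ℝ) := by
    exact_mod_cast Fintype.card_pos
  have hM' : (Nat.card {x : Fin k → Alt n //
        ¬ Good1 n (Rr s n) c (fun i => x (Fin.castLEEmb hk i))} : ℝ) *
      (Fintype.card (Alt n) : ℝ) ^ a =
      (Nat.card {u : Fin a → Alt n // ¬ Good1 n (Rr s n) c u} : ℝ) *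
      (Fintype.card (Alt n) : ℝ) ^ k := by
    exact_mod_cast hM
  have hAa : (0 : ℝ) < (Fintype.card (Alt n) : ℝ) ^ a := by positivity
  have hle' : (Nat.card {x : Fin k → Alt n // ¬ Good1 n (Rr s n) c x} : ℝ) ≤
      (Nat.card {x : Fin k → Alt n //
        ¬ Good1 n (Rr s n) c (fun i => x (Fin.castLEEmb hk i))} : ℝ) := by
    exact_mod_cast hle
  refine hle'.trans ?_
  rw [← mul_le_mul_iff_of_pos_right hAa, hM']
  calc (Nat.card {u : Fin a → Alt n // ¬ Good1 n (Rr s n) c u} : ℝ) *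
        (Fintype.card (Alt n) : ℝ) ^ k
      ≤ (B / (n : ℝ) * (Fintype.card (Alt n) : ℝ) ^ a) * (Fintype.card (Alt n) : ℝ) ^ k := by
        gcongr
    _ = B / (n : ℝ) * (Fintype.card (Alt n) : ℝ) ^ k * (Fintype.card (Alt n) : ℝ) ^ a := by ring

end TE852
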